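import Mathlib

/-!
# Bounded intermediate colour-degrees in flip sequences

For every `k ≥ 4`, the largest bounded position is `q(k) = ⌈k/3⌉ - 1`.
-/

namespace Pool.Agent.Results.MP_1aba1b_co.FlipPositions

open Finset

/-- The number of edges of colour `j` at `v`. -/
noncomputable def colourDeg {V : Type} {k : ℕ} (G : SimpleGraph V) (f : Sym2 V → Fin k)
    (j : Fin k) (v : V) : ℕ :=
  {w | G.Adj v w ∧ f s(v, w) = j}.ncard

/-- `e_j[v]`: the number of edges of colour `j` with both endpoints in the closed neighbourhood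
of `v`. -/
noncomputable def closedCount {V : Type} {k : ℕ} (G : SimpleGraph V) (f : Sym2 V → Fin k)
    (j : Fin k) (v : V) : ℕ :=
  {e | e ∈ G.edgeSet ∧ f e = j ∧ ∀ u ∈ e, u = v ∨ G.Adj v u}.ncard

/-- `G` with the edge-colouring `f` is an `(a_1, ..., a_k)`-flip graph. -/
def IsFlipGraph {V : Type} {k : ℕ} (a : Fin k → ℕ) (G : SimpleGraph V) (f : Sym2 V → Fin k) :
    Prop :=
  (∀ v j, colourDeg G f j v = a j) ∧
    ∀ v i j, i < j → closedCount G f j v < closedCount G f i v

/-- `a` is a `k`-flip sequence. -/
def IsFlipSequence {k : ℕ} (a : Fin k → ℕ) : Prop :=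
  StrictMono a ∧ (∀ j, 0 < a j) ∧
    ∃ (V : Type) (_ : Finite V) (_ : Nonempty V) (G : SimpleGraph V) (f : Sym2 V → Fin k),
      IsFlipGraph a G f

/-- Position `q` (counted from `1`) is bounded. -/
def PositionBounded (k q : ℕ) : Prop :=
  ∃ h : ℕ, 0 < h ∧ ∀ N : ℕ, ∃ a : Fin k → ℕ, IsFlipSequence a ∧
    (∀ i : Fin k, i.val + 1 = q → a i = h) ∧ (∀ i : Fin k, i.val + 1 = k → N < a i)

/-! ### Counting -/

section count

open Classical

variable {V : Type} [Fintype V] {k : ℕ} (G : SimpleGraph V) (f : Sym2 V → Fin k)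

/-- Indicator of an edge of colour `j`. -/
noncomputable def A (j : Fin k) (x y : V) : ℕ := if G.Adj x y ∧ f s(x, y) = j then 1 else 0

/-- Indicator of the closed neighbourhood. -/
noncomputable def I (v x : V) : ℕ := if x = v ∨ G.Adj v x then 1 else 0

lemma A_symm (j : Fin k) (x y : V) : A G f j x y = A G f j y x := by
  unfold A
  rw [G.adj_comm, Sym2.eq_swap]

lemma colourDeg_eq (j : Fin k) (v : V) : colourDeg G f j v = ∑ w, A G f j v w := by
  unfold colourDeg A
  rw [← Finset.card_filter, ← Set.ncard_coe_finset]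
  congr 1
  ext w; simp

lemma closedCount_eq (j : Fin k) (v : V) :
    2 * closedCount G f j v = ∑ x, ∑ y, I G v x * I G v y * A G f j x y := by
  let H : SimpleGraph V :=
    { Adj := fun x y => (G.Adj x y ∧ f s(x, y) = j) ∧ (x = v ∨ G.Adj v x) ∧ (y = v ∨ G.Adj v y)
      symm := ⟨by
        rintro x y ⟨⟨h1, h2⟩, h3, h4⟩
        exact ⟨⟨h1.symm, by rw [Sym2.eq_swap]; exact h2⟩, h4, h3⟩⟩
      loopless := ⟨fun x h => G.loopless.irrefl x h.1.1⟩ }
  have h1 : closedCount G f j v = H.edgeFinset.card := by
    unfold closedCount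
    rw [← Set.ncard_coe_finset]
    congr 1
    ext e
    induction e with
    | _ x y =>
    rw [SimpleGraph.coe_edgeFinset, SimpleGraph.mem_edgeSet]
    show (G.Adj x y ∧ f s(x, y) = j ∧ ∀ u ∈ s(x, y), u = v ∨ G.Adj v u) ↔ _
    constructor
    · rintro ⟨h1, h2, h3⟩
      exact ⟨⟨h1, h2⟩, h3 x (Sym2.mem_mk_left _ _), h3 y (Sym2.mem_mk_right _ _)⟩
    · rintro ⟨⟨h1, h2⟩, h3, h4⟩
      refine ⟨h1, h2, ?_⟩
      intro u hu
      rcases Sym2.mem_iff.mp hu with rfl | rfl
      · exact h3
      · exact h4
  rw [h1, ← H.sum_degrees_eq_twice_card_edges]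
  apply Finset.sum_congr rfl
  intro x _
  rw [← SimpleGraph.card_neighborFinset_eq_degree, SimpleGraph.neighborFinset_eq_filter,
    Finset.card_filter]
  apply Finset.sum_congr rfl
  intro y _
  unfold I A
  show (if (G.Adj x y ∧ f s(x, y) = j) ∧ (x = v ∨ G.Adj v x) ∧ (y = v ∨ G.Adj v y) then 1 else 0)
    = _
  by_cases h1 : G.Adj x y ∧ f s(x, y) = j <;> by_cases h2 : x = v ∨ G.Adj v x <;>
    by_cases h3 : y = v ∨ G.Adj v y <;> simp only [h1, h2, h3] <;> simp

end count

/-! ### The upper bound -/

section upper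

open Classical

variable {V : Type} [Fintype V] {k : ℕ} (G : SimpleGraph V) (f : Sym2 V → Fin k)

noncomputable def ad (x y : V) : ℕ := if G.Adj x y then 1 else 0

lemma sum_A (x y : V) : ∑ j, A G f j x y = ad G x y := by
  unfold A ad
  by_cases h : G.Adj x y
  · simp [h]
  · simp [h]

lemma closed_expand (j : Fin k) (v : V) :
    2 * closedCount G f j v = 2 * colourDeg G f j v +
      ∑ x, ∑ y, ad G v x * ad G v y * A G f j x y := by
  rw [closedCount_eq]
  have hI : ∀ x, I G v x = (if x = v then 1 else 0) + ad G v x := by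
    intro x
    unfold I ad
    by_cases h : x = v
    · subst h; simp
    · simp [h]
  have hadA : ∀ x y, ad G x y * A G f j x y = A G f j x y := by
    intro x y
    unfold ad A
    by_cases h : G.Adj x y <;> simp [h]
  have hAvv : A G f j v v = 0 := by unfold A; simp
  have hexp : ∀ x y, I G v x * I G v y * A G f j x y
      = (if x = v then (if y = v then A G f j x y else 0) else 0)
        + (if x = v then ad G v y * A G f j x y else 0)
        + (if y = v then ad G v x * A G f j x y else 0)
        + ad G v x * ad G v y * A G f j x y := by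
    intro x y
    rw [hI, hI]
    by_cases h1 : x = v <;> by_cases h2 : y = v <;> simp [h1, h2] <;> ring
  simp only [hexp, Finset.sum_add_distrib, Finset.sum_ite_eq', Finset.mem_univ, if_true]
  have e1 : ∑ x : V, ∑ y : V, (if x = v then (if y = v then A G f j x y else 0) else 0) = 0 := by
    rw [Finset.sum_eq_single v]
    · rw [Finset.sum_eq_single v]
      · simp [hAvv]
      · intro y _ hy; simp [hy]
      · intro h; exact absurd (Finset.mem_univ _) h
    · intro x _ hx; simp [hx]
    · intro h; exact absurd (Finset.mem_univ _) h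
  have e2 : ∑ x : V, ∑ y : V, (if x = v then ad G v y * A G f j x y else 0)
      = colourDeg G f j v := by
    rw [colourDeg_eq, Finset.sum_eq_single v]
    · simp [hadA]
    · intro x _ hx; simp [hx]
    · intro h; exact absurd (Finset.mem_univ _) h
  have e3 : ∑ x : V, ad G v x * A G f j x v = colourDeg G f j v := by
    rw [colourDeg_eq]
    apply Finset.sum_congr rfl
    intro x _
    rw [A_symm, hadA]
  rw [e1, e2, e3]
  ring

/-- Triple sums. -/
noncomputable def tri (p q r : V → V → ℕ) : ℕ := ∑ v, ∑ x, ∑ y, p v x * q v y * r x y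

lemma tri_swap (p q r : V → V → ℕ) (hr : ∀ x y, r x y = r y x) : tri p q r = tri q p r := by
  unfold tri
  apply Finset.sum_congr rfl
  intro v _
  rw [Finset.sum_comm]
  apply Finset.sum_congr rfl
  intro x _
  apply Finset.sum_congr rfl
  intro y _
  rw [hr y x]; ring

lemma tri_rot (p q r : V → V → ℕ) (hp : ∀ x y, p x y = p y x) : tri p q r = tri p r q := by
  unfold tri
  rw [Finset.sum_comm]
  apply Finset.sum_congr rfl
  intro v _
  apply Finset.sum_congr rfl
  intro x _
  apply Finset.sum_congr rfl
  intro y _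
  rw [hp x v]; ring

end upper

open Classical in
/-- The quantitative upper bound: if `3q ≥ k` then the large colour degrees are bounded in terms of
the first `q` ones. -/
lemma upper_bound {k : ℕ} (q : ℕ) (hq : 1 ≤ q) (hqk : q < k) (h3 : k ≤ 3 * q) {V : Type}
    [Fintype V] [Nonempty V] (a : Fin k → ℕ) (G : SimpleGraph V) (f : Sym2 V → Fin k)
    (hG : IsFlipGraph a G f) :
    ∑ j ∈ Finset.univ.filter (fun j : Fin k => ¬ j.val < q), a j ≤
      2 * (∑ j ∈ Finset.univ.filter (fun j : Fin k => j.val < q), a j) +
      2 * (∑ j ∈ Finset.univ.filter (fun j : Fin k => j.val < q), a j) ^ 2 := by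
  set S := Finset.univ.filter (fun j : Fin k => j.val < q) with hS
  set L := Finset.univ.filter (fun j : Fin k => ¬ j.val < q) with hL
  set AS := ∑ j ∈ S, a j with hAS
  set AL := ∑ j ∈ L, a j with hAL
  let n := Fintype.card V
  have hn : 0 < n := Fintype.card_pos
  let sm : V → V → ℕ := fun x y => ∑ j ∈ S, A G f j x y
  let lg : V → V → ℕ := fun x y => ∑ j ∈ L, A G f j x y
  have hsl : ∀ x y, ad G x y = sm x y + lg x y := by
    intro x y
    rw [← sum_A G f]
    exact (Finset.sum_filter_add_sum_filter_not _ _ _).symm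
  have hsm : ∀ x y, sm x y = sm y x := fun x y =>
    Finset.sum_congr rfl (fun j _ => A_symm G f j x y)
  have hlg : ∀ x y, lg x y = lg y x := fun x y =>
    Finset.sum_congr rfl (fun j _ => A_symm G f j x y)
  have hsmdeg : ∀ v, ∑ x, sm v x = AS := by
    intro v
    rw [hAS, Finset.sum_comm]
    apply Finset.sum_congr rfl
    intro j _
    rw [← colourDeg_eq, hG.1]
  -- the numbers of triangles
  let t : Fin k → V → ℕ := fun j v => ∑ x, ∑ y, ad G v x * ad G v y * A G f j x y
  have ht : ∀ j v, 2 * closedCount G f j v = 2 * a j + t j v := by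
    intro j v
    rw [closed_expand, hG.1]
  have hTS : ∑ v, ∑ j ∈ S, t j v = tri (ad G) (ad G) sm := by
    unfold tri
    apply Finset.sum_congr rfl
    intro v _
    rw [Finset.sum_comm]
    apply Finset.sum_congr rfl
    intro x _
    rw [Finset.sum_comm]
    apply Finset.sum_congr rfl
    intro y _
    rw [← Finset.mul_sum]
  have hTL : ∑ v, ∑ j ∈ L, t j v = tri (ad G) (ad G) lg := by
    unfold tri
    apply Finset.sum_congr rfl
    intro v _
    rw [Finset.sum_comm]
    apply Finset.sum_congr rfl
    intro x _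
    rw [Finset.sum_comm]
    apply Finset.sum_congr rfl
    intro y _
    rw [← Finset.mul_sum]
  have hexp : ∀ r : V → V → ℕ, tri (ad G) (ad G) r
      = tri sm sm r + tri sm lg r + tri lg sm r + tri lg lg r := by
    intro r
    unfold tri
    simp only [← Finset.sum_add_distrib]
    apply Finset.sum_congr rfl
    intro v _
    apply Finset.sum_congr rfl
    intro x _
    apply Finset.sum_congr rfl
    intro y _
    rw [hsl, hsl]; ring
  have e1 : tri lg sm sm = tri sm sm lg := by
    rw [tri_swap lg sm sm hsm, tri_rot sm lg sm hsm]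
  have e2 : tri sm lg sm = tri sm sm lg := tri_rot sm lg sm hsm
  have e3 : tri sm lg lg = tri lg lg sm := by
    rw [tri_swap sm lg lg hlg, tri_rot lg sm lg hlg]
  have e4 : tri lg sm lg = tri lg lg sm := tri_rot lg sm lg hlg
  have hsss : tri sm sm sm + tri sm sm lg ≤ n * AS ^ 2 := by
    have h1 : tri sm sm sm + tri sm sm lg = tri sm sm (ad G) := by
      unfold tri
      simp only [← Finset.sum_add_distrib]
      apply Finset.sum_congr rfl
      intro v _
      apply Finset.sum_congr rfl
      intro x _
      apply Finset.sum_congr rfl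
      intro y _
      rw [hsl]; ring
    rw [h1]
    unfold tri
    calc ∑ v, ∑ x, ∑ y, sm v x * sm v y * ad G x y
        ≤ ∑ v : V, ∑ x, ∑ y, sm v x * sm v y := by
          apply Finset.sum_le_sum; intro v _
          apply Finset.sum_le_sum; intro x _
          apply Finset.sum_le_sum; intro y _
          have : ad G x y ≤ 1 := by unfold ad; split_ifs <;> omega
          calc sm v x * sm v y * ad G x y ≤ sm v x * sm v y * 1 := Nat.mul_le_mul_left _ this
            _ = _ := by ring
      _ = ∑ v : V, AS ^ 2 := by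
          apply Finset.sum_congr rfl
          intro v _
          rw [← Finset.sum_mul_sum, hsmdeg, sq]
      _ = n * AS ^ 2 := by
          rw [Finset.sum_const, Finset.card_univ, smul_eq_mul]
  have hTSe := hexp sm
  have hTLe := hexp lg
  rw [e1, e2] at hTSe
  rw [e3, e4] at hTLe
  -- the flip inequalities
  have hflip : ∀ v, ∀ i ∈ S, ∀ j ∈ L, 2 * a j + t j v ≤ 2 * a i + t i v := by
    intro v i hi j hj
    have h1 : i < j := by
      rw [hS, Finset.mem_filter] at hi
      rw [hL, Finset.mem_filter] at hj
      have := hi.2; have := hj.2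
      exact Fin.lt_def.mpr (by omega)
    have h2 := hG.2 v i j h1
    have h3 := ht i v
    have h4 := ht j v
    omega
  have hcS : S.card = q := by
    rw [hS]
    have : Finset.univ.filter (fun j : Fin k => j.val < q)
        = (Finset.univ : Finset (Fin q)).map (Fin.castLEEmb hqk.le) := by
      ext j
      simp only [Finset.mem_filter, Finset.mem_univ, true_and, Finset.mem_map]
      constructor
      · intro h; exact ⟨⟨j.val, h⟩, rfl⟩
      · rintro ⟨i, rfl⟩; exact i.isLt
    rw [this, Finset.card_map, Finset.card_univ, Fintype.card_fin]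
  have hcL : L.card = k - q := by
    have h1 : S.card + L.card = (Finset.univ : Finset (Fin k)).card :=
      Finset.card_filter_add_card_filter_not _
    rw [Finset.card_univ, Fintype.card_fin, hcS] at h1
    omega
  have hsumv : ∀ v, q * (∑ j ∈ L, (2 * a j + t j v)) ≤ (k - q) * (∑ i ∈ S, (2 * a i + t i v)) := by
    intro v
    calc q * (∑ j ∈ L, (2 * a j + t j v)) = ∑ i ∈ S, ∑ j ∈ L, (2 * a j + t j v) := by
          rw [Finset.sum_const, hcS, smul_eq_mul]
      _ ≤ ∑ i ∈ S, ∑ j ∈ L, (2 * a i + t i v) :=
          Finset.sum_le_sum (fun i hi => Finset.sum_le_sum (fun j hj => hflip v i hi j hj))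
      _ = (k - q) * (∑ i ∈ S, (2 * a i + t i v)) := by
          rw [Finset.mul_sum]
          apply Finset.sum_congr rfl
          intro i _
          rw [Finset.sum_const, hcL, smul_eq_mul]
  have hsum : q * (2 * n * AL + tri (ad G) (ad G) lg) ≤
      (k - q) * (2 * n * AS + tri (ad G) (ad G) sm) := by
    have h1 := Finset.sum_le_sum (fun v (_ : v ∈ (Finset.univ : Finset V)) => hsumv v)
    rw [← Finset.mul_sum, ← Finset.mul_sum] at h1
    have h2 : ∑ v : V, ∑ j ∈ L, (2 * a j + t j v) = 2 * n * AL + tri (ad G) (ad G) lg := by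
      rw [← hTL]
      simp only [Finset.sum_add_distrib]
      rw [Finset.sum_const, Finset.card_univ, ← Finset.mul_sum, smul_eq_mul]
      ring
    have h3 : ∑ v : V, ∑ j ∈ S, (2 * a j + t j v) = 2 * n * AS + tri (ad G) (ad G) sm := by
      rw [← hTS]
      simp only [Finset.sum_add_distrib]
      rw [Finset.sum_const, Finset.card_univ, ← Finset.mul_sum, smul_eq_mul]
      ring
    rw [h2, h3] at h1
    exact h1
  have hsum2 : 2 * n * AL + tri (ad G) (ad G) lg ≤ 2 * (2 * n * AS + tri (ad G) (ad G) sm) := by
    have h1 : (k - q) * (2 * n * AS + tri (ad G) (ad G) sm)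
        ≤ (2 * q) * (2 * n * AS + tri (ad G) (ad G) sm) :=
      Nat.mul_le_mul_right _ (by omega)
    have h2 := hsum.trans h1
    have h4 : q * (2 * n * AL + tri (ad G) (ad G) lg)
        ≤ q * (2 * (2 * n * AS + tri (ad G) (ad G) sm)) := by
      calc _ ≤ _ := h2
        _ = _ := by ring
    exact Nat.le_of_mul_le_mul_left h4 hq
  rw [hTSe, hTLe] at hsum2
  have hfin : n * AL ≤ n * (2 * AS + 2 * AS ^ 2) := by
    have h5 : 0 ≤ tri sm sm lg := Nat.zero_le _
    nlinarith
  exact Nat.le_of_mul_le_mul_left hfin hn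

/-! ### The lower bound: profiles -/

/-- Some nonempty finite coloured graph has constant colour degrees `a` and constant counts
`e`. -/
def Profile {k : ℕ} (a e : Fin k → ℕ) : Prop :=
  ∃ (V : Type) (_ : Finite V) (_ : Nonempty V) (G : SimpleGraph V) (f : Sym2 V → Fin k),
    ∀ v j, colourDeg G f j v = a j ∧ closedCount G f j v = e j

open Classical in
/-- The colouring of a box product. -/
noncomputable def boxCol {V W : Type} {k : ℕ} (f : Sym2 V → Fin k) (g : Sym2 W → Fin k) :
    Sym2 (V × W) → Fin k :=
  Sym2.lift ⟨fun x y => if x.2 = y.2 then f s(x.1, y.1) else g s(x.2, y.2), by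
    intro x y
    dsimp only
    by_cases h : x.2 = y.2
    · rw [if_pos h, if_pos h.symm, Sym2.eq_swap]
    · rw [if_neg h, if_neg (Ne.symm h), Sym2.eq_swap]⟩

open Classical in
lemma A_box {V W : Type} [Fintype V] [Fintype W] {k : ℕ} (G : SimpleGraph V) (H : SimpleGraph W)
    (f : Sym2 V → Fin k) (g : Sym2 W → Fin k) (j : Fin k) (x y : V × W) :
    A (G □ H) (boxCol f g) j x y =
      (if x.2 = y.2 then A G f j x.1 y.1 else 0) + (if x.1 = y.1 then A H g j x.2 y.2 else 0) := by
  unfold A boxCol
  simp only [SimpleGraph.boxProd_adj, Sym2.lift_mk]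
  by_cases h1 : x.1 = y.1 <;> by_cases h2 : x.2 = y.2 <;> simp [h1, h2]

open Classical in
lemma I_box {V W : Type} [Fintype V] [Fintype W] (G : SimpleGraph V) (H : SimpleGraph W)
    (v1 x1 : V) (v2 x2 : W) :
    I (G □ H) (v1, v2) (x1, x2) = (if x2 = v2 then I G v1 x1 else 0) +
      (if x1 = v1 then (if H.Adj v2 x2 then 1 else 0) else 0) := by
  unfold I
  rw [SimpleGraph.boxProd_adj]
  by_cases h1 : x1 = v1
  · subst h1
    by_cases h2 : x2 = v2
    · subst h2; simp
    · simp [h2]
  · by_cases h2 : x2 = v2
    · subst h2; simp [h1]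
    · simp [h1, h2, Ne.symm h1, Ne.symm h2]

open Classical in
lemma I_box' {V W : Type} [Fintype V] [Fintype W] (G : SimpleGraph V) (H : SimpleGraph W)
    (v1 x1 : V) (v2 x2 : W) :
    I (G □ H) (v1, v2) (x1, x2) = (if x1 = v1 then I H v2 x2 else 0) +
      (if x2 = v2 then (if G.Adj v1 x1 then 1 else 0) else 0) := by
  unfold I
  rw [SimpleGraph.boxProd_adj]
  by_cases h1 : x1 = v1
  · subst h1
    by_cases h2 : x2 = v2
    · subst h2; simp
    · simp [h2]
  · by_cases h2 : x2 = v2
    · subst h2; simp [h1]
    · simp [h1, h2, Ne.symm h1, Ne.symm h2]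

lemma A_self {V : Type} [Fintype V] {k : ℕ} (G : SimpleGraph V) (f : Sym2 V → Fin k) (j : Fin k)
    (x : V) : A G f j x x = 0 := by
  unfold A; simp

open Classical in
lemma closed_box {V W : Type} [Fintype V] [Fintype W] {k : ℕ} (G : SimpleGraph V)
    (H : SimpleGraph W) (f : Sym2 V → Fin k) (g : Sym2 W → Fin k) (j : Fin k) (v : V × W) :
    closedCount (G □ H) (boxCol f g) j v = closedCount G f j v.1 + closedCount H g j v.2 := by
  obtain ⟨v1, v2⟩ := v
  have h2 : 2 * closedCount (G □ H) (boxCol f g) j (v1, v2)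
      = 2 * closedCount G f j v1 + 2 * closedCount H g j v2 := by
    rw [closedCount_eq, closedCount_eq, closedCount_eq]
    have hsplit : ∀ x y : V × W, I (G □ H) (v1, v2) x * I (G □ H) (v1, v2) y *
        A (G □ H) (boxCol f g) j x y
        = (if x.2 = y.2 then (if x.2 = v2 then I G v1 x.1 * I G v1 y.1 * A G f j x.1 y.1 else 0)
            else 0)
          + (if x.1 = y.1 then (if x.1 = v1 then I H v2 x.2 * I H v2 y.2 * A H g j x.2 y.2 else 0)
            else 0) := by
      rintro ⟨x1, x2⟩ ⟨y1, y2⟩
      rw [A_box, mul_add]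
      congr 1
      · simp only
        by_cases hxy : x2 = y2
        · subst hxy
          rw [if_pos rfl, if_pos rfl, I_box, I_box]
          by_cases hz : x2 = v2
          · subst hz
            simp
          · simp only [hz, if_false, zero_add]
            by_cases hx : x1 = v1
            · by_cases hy : y1 = v1
              · subst hx; subst hy; rw [A_self, mul_zero]
              · simp [hy]
            · simp [hx]
        · simp [hxy]
      · simp only
        by_cases hxy : x1 = y1
        · subst hxy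
          rw [if_pos rfl, if_pos rfl, I_box', I_box']
          by_cases hz : x1 = v1
          · subst hz
            simp
          · simp only [hz, if_false, zero_add]
            by_cases hx : x2 = v2
            · by_cases hy : y2 = v2
              · subst hx; subst hy; rw [A_self, mul_zero]
              · simp [hy]
            · simp [hx]
        · simp [hxy]
    simp only [hsplit, Finset.sum_add_distrib]
    congr 1
    · rw [Fintype.sum_prod_type]
      apply Finset.sum_congr rfl
      intro x1 _
      rw [Finset.sum_eq_single v2]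
      · rw [Fintype.sum_prod_type]
        apply Finset.sum_congr rfl
        intro y1 _
        rw [Finset.sum_eq_single v2]
        · simp
        · intro y2 _ hy; simp [Ne.symm hy]
        · intro h; exact absurd (Finset.mem_univ _) h
      · intro x2 _ hx
        apply Finset.sum_eq_zero
        intro y _
        simp [hx]
      · intro h; exact absurd (Finset.mem_univ _) h
    · rw [Fintype.sum_prod_type, Finset.sum_eq_single v1]
      · apply Finset.sum_congr rfl
        intro x2 _
        rw [Fintype.sum_prod_type, Finset.sum_eq_single v1]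
        · simp
        · intro y1 _ hy
          apply Finset.sum_eq_zero
          intro y2 _
          simp [Ne.symm hy]
        · intro h; exact absurd (Finset.mem_univ _) h
      · intro x1 _ hx
        apply Finset.sum_eq_zero
        intro x2 _
        apply Finset.sum_eq_zero
        intro y _
        simp [hx]
      · intro h; exact absurd (Finset.mem_univ _) h
  show _ = closedCount G f j v1 + closedCount H g j v2
  omega

open Classical in
lemma deg_box {V W : Type} [Fintype V] [Fintype W] {k : ℕ} (G : SimpleGraph V)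
    (H : SimpleGraph W) (f : Sym2 V → Fin k) (g : Sym2 W → Fin k) (j : Fin k) (v : V × W) :
    colourDeg (G □ H) (boxCol f g) j v = colourDeg G f j v.1 + colourDeg H g j v.2 := by
  obtain ⟨v1, v2⟩ := v
  rw [colourDeg_eq, colourDeg_eq, colourDeg_eq]
  simp only [A_box, Finset.sum_add_distrib]
  congr 1
  · rw [Fintype.sum_prod_type]
    apply Finset.sum_congr rfl
    intro y1 _
    simp
  · rw [Fintype.sum_prod_type, Finset.sum_eq_single v1]
    · simp
    · intro y1 _ hy
      simp [Ne.symm hy]
    · intro h; exact absurd (Finset.mem_univ _) h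

lemma Profile.add {k : ℕ} {a e a' e' : Fin k → ℕ} (h : Profile a e) (h' : Profile a' e') :
    Profile (fun j => a j + a' j) (fun j => e j + e' j) := by
  obtain ⟨V, hV, hVn, G, f, hG⟩ := h
  obtain ⟨W, hW, hWn, H, g, hH⟩ := h'
  haveI := Fintype.ofFinite V
  haveI := Fintype.ofFinite W
  refine ⟨V × W, inferInstance, inferInstance, G □ H, boxCol f g, ?_⟩
  intro v j
  rw [deg_box, closed_box, (hG v.1 j).1, (hG v.1 j).2, (hH v.2 j).1, (hH v.2 j).2]
  exact ⟨rfl, rfl⟩

lemma Profile.zero {k : ℕ} (hk : 0 < k) : Profile (fun _ : Fin k => 0) (fun _ => 0) := by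
  refine ⟨Unit, inferInstance, inferInstance, ⊥, fun _ => ⟨0, hk⟩, ?_⟩
  intro v j
  unfold colourDeg closedCount
  constructor
  · rw [Set.ncard_eq_zero]
    ext w
    simp
  · rw [Set.ncard_eq_zero]
    ext w
    simp

lemma Profile.sum {k : ℕ} (hk : 0 < k) (q : ℕ) (a e : ℕ → Fin k → ℕ)
    (h : ∀ i < q, Profile (a i) (e i)) :
    Profile (fun j => ∑ i ∈ Finset.range q, a i j) (fun j => ∑ i ∈ Finset.range q, e i j) := by
  induction q with
  | zero => simpa using Profile.zero hk
  | succ q ih =>
    have h1 := (ih (fun i hi => h i (by omega))).add (h q (by omega))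
    simp only [Finset.sum_range_succ]
    exact h1

/-! ### The gadget -/

/-- The gadget graph: two sides, each a disjoint union of cliques, all cross pairs adjacent. -/
def gadget (M h : ℕ) : SimpleGraph (Bool × ZMod M × Fin (h + 1)) where
  Adj x y := if x.1 = y.1 then x.2.1 = y.2.1 ∧ x.2.2 ≠ y.2.2 else True
  symm := ⟨by
    intro x y hxy
    by_cases h1 : x.1 = y.1
    · rw [if_pos h1] at hxy
      rw [if_pos h1.symm]
      exact ⟨hxy.1.symm, hxy.2.symm⟩
    · rw [if_neg (Ne.symm h1)]
      trivial⟩
  loopless := ⟨by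
    intro x hx
    rw [if_pos rfl] at hx
    exact hx.2 rfl⟩

/-- The colouring of the gadget. -/
def gadgetCol {k : ℕ} (M h : ℕ) (i : Fin k) (φ : ZMod M → Fin k) :
    Sym2 (Bool × ZMod M × Fin (h + 1)) → Fin k :=
  Sym2.lift ⟨fun x y => if x.1 = y.1 then i else
    (if x.1 = true then φ (x.2.1 - y.2.1) else φ (y.2.1 - x.2.1)), by
    intro x y
    dsimp only
    by_cases h1 : x.1 = y.1
    · rw [if_pos h1, if_pos h1.symm]
    · rw [if_neg h1, if_neg (Ne.symm h1)]
      rcases hx : x.1 <;> rcases hy : y.1 <;> simp_all⟩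

/-- Indicator of a cross edge of colour `j`. -/
def Dg {k : ℕ} (M : ℕ) (φ : ZMod M → Fin k) (j : Fin k) (s : Bool) (a b : ZMod M) : ℕ :=
  if (if s = true then φ (a - b) else φ (b - a)) = j then 1 else 0

lemma Dg_swap {k : ℕ} (M : ℕ) (φ : ZMod M → Fin k) (j : Fin k) (s : Bool) (a b : ZMod M) :
    Dg M φ j (!s) a b = Dg M φ j s b a := by
  unfold Dg
  cases s <;> simp

lemma Dg_sum {k : ℕ} (M : ℕ) [NeZero M] (φ : ZMod M → Fin k) (j : Fin k) (s : Bool) (a : ZMod M) :
    ∑ b, Dg M φ j s a b = (Finset.univ.filter (fun d : ZMod M => φ d = j)).card := by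
  unfold Dg
  rw [Finset.card_filter]
  cases s
  · simp only [Bool.false_eq_true, if_false]
    exact (Equiv.subRight a).sum_comp (fun d => if φ d = j then 1 else 0)
  · simp only [if_true]
    exact (Equiv.subLeft a).sum_comp (fun d => if φ d = j then 1 else 0)

lemma A_same {k : ℕ} (M h : ℕ) [NeZero M] (i : Fin k) (φ : ZMod M → Fin k) (j : Fin k) (s : Bool)
    (a b : ZMod M) (g g' : Fin (h + 1)) :
    A (gadget M h) (gadgetCol M h i φ) j (s, a, g) (s, b, g')
      = if a = b then (if g = g' then 0 else (if i = j then 1 else 0)) else 0 := by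
  unfold A
  have h1 : (gadget M h).Adj (s, a, g) (s, b, g') ↔ (a = b ∧ g ≠ g') := by
    show (if s = s then a = b ∧ g ≠ g' else True) ↔ _
    rw [if_pos rfl]
  have h2 : gadgetCol M h i φ s((s, a, g), (s, b, g')) = i := by
    unfold gadgetCol
    rw [Sym2.lift_mk]
    simp
  rw [h1, h2]
  by_cases e1 : a = b <;> by_cases e2 : g = g' <;> by_cases e3 : i = j <;> simp [e1, e2, e3]

lemma A_diff {k : ℕ} (M h : ℕ) [NeZero M] (i : Fin k) (φ : ZMod M → Fin k) (j : Fin k) (s : Bool)
    (a b : ZMod M) (g g' : Fin (h + 1)) :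
    A (gadget M h) (gadgetCol M h i φ) j (s, a, g) (!s, b, g') = Dg M φ j s a b := by
  unfold A Dg
  have h0 : s ≠ !s := by cases s <;> simp
  have h1 : (gadget M h).Adj (s, a, g) (!s, b, g') ↔ True := by
    show (if s = (!s) then a = b ∧ g ≠ g' else True) ↔ _
    rw [if_neg h0]
  have h2 : gadgetCol M h i φ s((s, a, g), (!s, b, g'))
      = if s = true then φ (a - b) else φ (b - a) := by
    unfold gadgetCol
    rw [Sym2.lift_mk]
    simp only
    rw [if_neg h0]
  simp only [h1, h2, true_and]

lemma A_diff' {k : ℕ} (M h : ℕ) [NeZero M] (i : Fin k) (φ : ZMod M → Fin k) (j : Fin k) (s : Bool)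
    (a b : ZMod M) (g g' : Fin (h + 1)) :
    A (gadget M h) (gadgetCol M h i φ) j (!s, a, g) (s, b, g') = Dg M φ j s b a := by
  have := A_diff M h i φ j (!s) a b g g'
  rw [Bool.not_not] at this
  rw [this, Dg_swap]

lemma I_same (M h : ℕ) [NeZero M] (s : Bool) (a b : ZMod M) (g g' : Fin (h + 1)) :
    I (gadget M h) (s, a, g) (s, b, g') = if b = a then 1 else 0 := by
  unfold I
  have h1 : (gadget M h).Adj (s, a, g) (s, b, g') ↔ (a = b ∧ g ≠ g') := by
    show (if s = s then a = b ∧ g ≠ g' else True) ↔ _
    rw [if_pos rfl]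
  rw [h1]
  by_cases e1 : b = a
  · subst e1
    by_cases e2 : g' = g
    · subst e2; simp
    · simp [Ne.symm e2]
  · simp [e1, Ne.symm e1]

lemma I_diff (M h : ℕ) [NeZero M] (s : Bool) (a b : ZMod M) (g g' : Fin (h + 1)) :
    I (gadget M h) (s, a, g) (!s, b, g') = 1 := by
  unfold I
  have h0 : s ≠ !s := by cases s <;> simp
  have h1 : (gadget M h).Adj (s, a, g) (!s, b, g') ↔ True := by
    show (if s = (!s) then a = b ∧ g ≠ g' else True) ↔ _
    rw [if_neg h0]
  rw [h1]
  simp

lemma sum_bool_not (s : Bool) (F : Bool → ℕ) : ∑ s', F s' = F s + F (!s) := by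
  cases s <;> simp [add_comm]

lemma sum_ne (h : ℕ) (g : Fin (h + 1)) (c : ℕ) :
    ∑ g' : Fin (h + 1), (if g = g' then 0 else c) = h * c := by
  rw [← Finset.add_sum_erase _ _ (Finset.mem_univ g), if_pos rfl, zero_add,
    Finset.sum_congr rfl (g := fun _ => c)]
  · rw [Finset.sum_const, Finset.card_erase_of_mem (Finset.mem_univ _), Finset.card_univ,
      Fintype.card_fin, Nat.add_sub_cancel, smul_eq_mul]
  · intro x hx
    rw [if_neg (Finset.ne_of_mem_erase hx).symm]

lemma gadget_deg {k : ℕ} (M h : ℕ) [NeZero M] (i : Fin k) (φ : ZMod M → Fin k) (j : Fin k)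
    (v : Bool × ZMod M × Fin (h + 1)) :
    colourDeg (gadget M h) (gadgetCol M h i φ) j v
      = (h + 1) * (Finset.univ.filter (fun d : ZMod M => φ d = j)).card
        + (if j = i then h else 0) := by
  obtain ⟨s, a, g⟩ := v
  rw [colourDeg_eq, Fintype.sum_prod_type, sum_bool_not s]
  simp only [Fintype.sum_prod_type, A_same, A_diff]
  have e1 : ∑ b : ZMod M, ∑ g' : Fin (h + 1),
      (if a = b then (if g = g' then 0 else (if i = j then 1 else 0)) else 0)
      = if j = i then h else 0 := by
    rw [Finset.sum_eq_single a]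
    · simp only [if_true]
      rw [sum_ne]
      by_cases hij : i = j
      · simp [hij]
      · simp [hij, Ne.symm hij]
    · intro b _ hb; simp [Ne.symm hb]
    · intro h; exact absurd (Finset.mem_univ _) h
  rw [e1]
  simp only [Finset.sum_const, Finset.card_univ, Fintype.card_fin, smul_eq_mul]
  rw [← Finset.mul_sum, Dg_sum]
  ring

lemma gadget_closed {k : ℕ} (M h : ℕ) [NeZero M] (i : Fin k) (φ : ZMod M → Fin k) (j : Fin k)
    (v : Bool × ZMod M × Fin (h + 1)) :
    closedCount (gadget M h) (gadgetCol M h i φ) j v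
      = (h + 1) ^ 2 * (Finset.univ.filter (fun d : ZMod M => φ d = j)).card
        + (if j = i then (M + 1) * (h + 1).choose 2 else 0) := by
  obtain ⟨s, a, g⟩ := v
  set m := (Finset.univ.filter (fun d : ZMod M => φ d = j)).card with hm
  set c := (if i = j then 1 else 0) with hc
  have hinner1 : ∀ g1 : Fin (h + 1), ∑ y : Bool × ZMod M × Fin (h + 1),
      I (gadget M h) (s, a, g) (s, a, g1) * I (gadget M h) (s, a, g) y *
        A (gadget M h) (gadgetCol M h i φ) j (s, a, g1) y = h * c + (h + 1) * m := by
    intro g1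
    rw [Fintype.sum_prod_type, sum_bool_not s]
    simp only [Fintype.sum_prod_type, A_same, A_diff, I_same, I_diff, if_true, one_mul]
    congr 1
    · rw [Finset.sum_eq_single a]
      · simp only [if_true, one_mul]
        exact sum_ne h g1 c
      · intro b _ hb; simp [hb]
      · intro h; exact absurd (Finset.mem_univ _) h
    · simp only [Finset.sum_const, Finset.card_univ, Fintype.card_fin, smul_eq_mul]
      rw [← Finset.mul_sum, Dg_sum]
  have hinner2 : ∀ (b1 : ZMod M) (g1 : Fin (h + 1)), ∑ y : Bool × ZMod M × Fin (h + 1),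
      I (gadget M h) (s, a, g) (!s, b1, g1) * I (gadget M h) (s, a, g) y *
        A (gadget M h) (gadgetCol M h i φ) j (!s, b1, g1) y
        = h * c + (h + 1) * Dg M φ j s a b1 := by
    intro b1 g1
    rw [Fintype.sum_prod_type, sum_bool_not (!s)]
    have hss : (!(!s)) = s := by simp
    simp only [Fintype.sum_prod_type, I_diff, A_same, one_mul]
    congr 1
    · rw [Finset.sum_eq_single b1]
      · simp only [if_true]
        exact sum_ne h g1 c
      · intro b _ hb; simp [Ne.symm hb]
      · intro h; exact absurd (Finset.mem_univ _) h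
    · simp only [hss, A_diff', I_same]
      rw [Finset.sum_eq_single a]
      · simp only [if_true, one_mul, Finset.sum_const, Finset.card_univ, Fintype.card_fin,
          smul_eq_mul]
      · intro b _ hb; simp [hb]
      · intro h; exact absurd (Finset.mem_univ _) h
  have h2 : 2 * closedCount (gadget M h) (gadgetCol M h i φ) j (s, a, g)
      = (h + 1) * (h * c + (h + 1) * m) + M * ((h + 1) * (h * c)) + (h + 1) * ((h + 1) * m) := by
    rw [closedCount_eq, Fintype.sum_prod_type, sum_bool_not s, Fintype.sum_prod_type,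
      Fintype.sum_prod_type, add_assoc]
    congr 1
    · rw [Finset.sum_eq_single a]
      · simp only [hinner1, Finset.sum_const, Finset.card_univ, Fintype.card_fin, smul_eq_mul]
      · intro b _ hb
        apply Finset.sum_eq_zero
        intro g1 _
        apply Finset.sum_eq_zero
        intro y _
        rw [I_same, if_neg hb, zero_mul, zero_mul]
      · intro h; exact absurd (Finset.mem_univ _) h
    · simp only [hinner2, Finset.sum_const, Finset.card_univ, Fintype.card_fin, smul_eq_mul]
      simp only [mul_add, Finset.sum_add_distrib, Finset.sum_const, Finset.card_univ, ZMod.card,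
        smul_eq_mul]
      congr 1
      rw [← Finset.mul_sum, ← Finset.mul_sum, Dg_sum]
  have h3 : (h + 1) * h = 2 * (h + 1).choose 2 := by
    rw [Nat.choose_two_right, Nat.add_sub_cancel, Nat.mul_div_cancel']
    have := Nat.even_mul_succ_self h
    rw [mul_comm] at this
    exact this.two_dvd
  by_cases hij : j = i
  · have hc1 : c = 1 := by rw [hc, if_pos hij.symm]
    rw [if_pos hij]
    rw [hc1] at h2
    nlinarith
  · have hc0 : c = 0 := by rw [hc, if_neg (Ne.symm hij)]
    rw [if_neg hij]
    rw [hc0] at h2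
    nlinarith

lemma exists_phi {k : ℕ} (m : Fin k → ℕ) (M : ℕ) [NeZero M] (hM : ∑ j, m j = M) :
    ∃ φ : ZMod M → Fin k, ∀ j, (Finset.univ.filter (fun d : ZMod M => φ d = j)).card = m j := by
  have hcard : Fintype.card (ZMod M) = Fintype.card ((j : Fin k) × Fin (m j)) := by
    rw [ZMod.card, Fintype.card_sigma]
    simp [hM]
  let e := Fintype.equivOfCardEq hcard
  refine ⟨fun d => (e d).1, ?_⟩
  intro j
  have : Finset.univ.filter (fun d : ZMod M => (e d).1 = j)
      = (Finset.univ : Finset (Fin (m j))).map
        ⟨fun x => e.symm ⟨j, x⟩, fun x y h => by simpa using h⟩ := by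
    ext d
    simp only [Finset.mem_filter, Finset.mem_univ, true_and, Finset.mem_map,
      Function.Embedding.coeFn_mk]
    constructor
    · rintro rfl
      exact ⟨(e d).2, by simp⟩
    · rintro ⟨x, rfl⟩
      simp
  rw [this, Finset.card_map, Finset.card_univ, Fintype.card_fin]

lemma Profile.gadget {k : ℕ} (h : ℕ) (i : Fin k) (m : Fin k → ℕ) (hM : 0 < ∑ j, m j) :
    Profile (fun j => (h + 1) * m j + (if j = i then h else 0))
      (fun j => (h + 1) ^ 2 * m j +
        (if j = i then (∑ j, m j + 1) * (h + 1).choose 2 else 0)) := by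
  have : NeZero (∑ j, m j) := ⟨hM.ne'⟩
  obtain ⟨φ, hφ⟩ := exists_phi m _ rfl
  refine ⟨Bool × ZMod (∑ j, m j) × Fin (h + 1), inferInstance, inferInstance,
    FlipPositions.gadget (∑ j, m j) h, gadgetCol (∑ j, m j) h i φ, ?_⟩
  intro v j
  rw [gadget_deg, gadget_closed, hφ]
  exact ⟨rfl, rfl⟩

/-! ### Choosing the parameters -/

/-- The cross multiplicities of the `i`-th gadget. -/
def mm (k q Z i : ℕ) (j : Fin k) : ℕ :=
  if j.val < q then 0 else (Z - i) + (if i = 0 then k - 1 - j.val else 0)

/-- The plain multiplicities. -/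
def bb (k q H : ℕ) (j : Fin k) : ℕ := if j.val < q then j.val else (H + 2) * (j.val - q)

lemma profile_total (k q H Z : ℕ) (hq : 1 ≤ q) (h3 : 3 * q < k) (hZ : q < Z) :
    Profile (fun j : Fin k => ∑ i ∈ Finset.range q,
        ((H + 1) * mm k q Z i j + (if j.val = i then H else 0)) + bb k q H j)
      (fun j : Fin k => ∑ i ∈ Finset.range q, ((H + 1) ^ 2 * mm k q Z i j +
        (if j.val = i then (∑ l, mm k q Z i l + 1) * (H + 1).choose 2 else 0)) + bb k q H j) := by
  have h1 : Profile (fun j : Fin k => ∑ i ∈ Finset.range q,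
        ((H + 1) * mm k q Z i j + (if j.val = i then H else 0)))
      (fun j : Fin k => ∑ i ∈ Finset.range q, ((H + 1) ^ 2 * mm k q Z i j +
        (if j.val = i then (∑ l, mm k q Z i l + 1) * (H + 1).choose 2 else 0))) := by
    apply Profile.sum (by omega) q
      (fun i j => ((H + 1) * mm k q Z i j + (if j.val = i then H else 0)))
      (fun i j => ((H + 1) ^ 2 * mm k q Z i j +
        (if j.val = i then (∑ l, mm k q Z i l + 1) * (H + 1).choose 2 else 0)))
    intro i hi
    have hik : i < k := by omega
    have hpos : 0 < ∑ j, mm k q Z i j := by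
      apply Finset.sum_pos' (fun _ _ => Nat.zero_le _)
      refine ⟨⟨q, by omega⟩, Finset.mem_univ _, ?_⟩
      unfold mm
      simp only [lt_irrefl, if_false]
      omega
    have h2 := Profile.gadget H (⟨i, hik⟩ : Fin k) (mm k q Z i) hpos
    have e : ∀ j : Fin k, (j = (⟨i, hik⟩ : Fin k)) ↔ j.val = i := fun j => Fin.ext_iff
    simp only [e] at h2
    exact h2
  have hpos : 0 < ∑ j, bb k q H j := by
    apply Finset.sum_pos' (fun _ _ => Nat.zero_le _)
    refine ⟨⟨q + 1, by omega⟩, Finset.mem_univ _, ?_⟩
    unfold bb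
    rw [if_neg (by simp)]
    apply Nat.mul_pos (by omega)
    simp
  have h2 := Profile.gadget 0 (⟨0, by omega⟩ : Fin k) (bb k q H) hpos
  have h4 : Profile (bb k q H) (bb k q H) := by
    have e1 : (fun j : Fin k => (0 + 1) * bb k q H j + (if j = (⟨0, by omega⟩ : Fin k) then 0 else 0))
        = bb k q H := by
      funext j; simp
    have e2 : (fun j : Fin k => (0 + 1) ^ 2 * bb k q H j + (if j = (⟨0, by omega⟩ : Fin k) then
        (∑ j, bb k q H j + 1) * (0 + 1).choose 2 else 0)) = bb k q H := by
      funext j; simp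
    rw [e1, e2] at h2
    exact h2
  exact h1.add h4

lemma position_bounded (k q : ℕ) (hq : 1 ≤ q) (h3 : 3 * q < k) : PositionBounded k q := by
  set H := 2 * q + 1 with hH
  refine ⟨3 * q, by omega, ?_⟩
  intro N
  set Z := H ^ 2 * q + 2 * (H + 1) * k + 1 + N with hZ
  have hZq : q < Z := by
    have : q ≤ H ^ 2 * q := Nat.le_mul_of_pos_left _ (by positivity)
    omega
  have hZk : k < Z := by
    have : k ≤ 2 * (H + 1) * k := Nat.le_mul_of_pos_left _ (by positivity)
    omega
  have hZN : N < Z := by omega
  set R := k - 1 - q with hR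
  set W := ∑ i ∈ Finset.range q, (Z - i) with hW
  have hWZ : Z ≤ W := by
    rw [hW]
    have : Z - 0 ≤ ∑ i ∈ Finset.range q, (Z - i) :=
      Finset.single_le_sum (f := fun i => Z - i) (fun _ _ => Nat.zero_le _)
        (Finset.mem_range.mpr hq)
    simpa using this
  have hWq : W ≤ q * Z := by
    rw [hW]
    calc ∑ i ∈ Finset.range q, (Z - i) ≤ ∑ _i ∈ Finset.range q, Z :=
          Finset.sum_le_sum (fun i _ => Nat.sub_le _ _)
      _ = q * Z := by rw [Finset.sum_const, Finset.card_range, smul_eq_mul]
  -- the sum of the cross multiplicities over the gadgets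
  have hmmS : ∀ j : Fin k, j.val < q → ∀ i, mm k q Z i j = 0 := by
    intro j hj i; unfold mm; rw [if_pos hj]
  have hmmL : ∀ j : Fin k, ¬ j.val < q → ∑ i ∈ Finset.range q, mm k q Z i j
      = W + (k - 1 - j.val) := by
    intro j hj
    unfold mm
    simp only [hj, if_false]
    rw [Finset.sum_add_distrib, Finset.sum_ite_eq' (Finset.range q) 0]
    rw [if_pos (Finset.mem_range.mpr hq)]
  have hite : ∀ (j : Fin k) (g : ℕ → ℕ), ∑ i ∈ Finset.range q, (if j.val = i then g i else 0)
      = if j.val < q then g j.val else 0 := by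
    intro j g
    rw [Finset.sum_ite_eq (Finset.range q) j.val g]
    simp only [Finset.mem_range]
  obtain ⟨V, hV, hVn, G, f, hGf⟩ := profile_total k q H Z hq h3 hZq
  set aT : Fin k → ℕ := fun j : Fin k => ∑ i ∈ Finset.range q,
        ((H + 1) * mm k q Z i j + (if j.val = i then H else 0)) + bb k q H j with haT
  set eT : Fin k → ℕ := fun j : Fin k => ∑ i ∈ Finset.range q, ((H + 1) ^ 2 * mm k q Z i j +
        (if j.val = i then (∑ l, mm k q Z i l + 1) * (H + 1).choose 2 else 0)) + bb k q H j
    with heT
  have haS : ∀ j : Fin k, j.val < q → aT j = H + j.val := by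
    intro j hj
    rw [haT]
    simp only
    rw [Finset.sum_add_distrib, hite j (fun _ => H), if_pos hj,
      Finset.sum_eq_zero (fun i _ => by rw [hmmS j hj, mul_zero])]
    unfold bb
    rw [if_pos hj, zero_add]
  have haL : ∀ j : Fin k, ¬ j.val < q → aT j = (H + 1) * (W + R) + (j.val - q) := by
    intro j hj
    rw [haT]
    simp only
    rw [Finset.sum_add_distrib, hite j (fun _ => H), if_neg hj, ← Finset.mul_sum, hmmL j hj]
    unfold bb
    rw [if_neg hj]
    have h1 : (k - 1 - j.val) + (j.val - q) = R := by have := j.isLt; omega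
    have h2 : W + R = W + (k - 1 - j.val) + (j.val - q) := by omega
    rw [h2]
    ring
  have heS : ∀ j : Fin k, j.val < q → eT j = (∑ l, mm k q Z j.val l + 1) * (H + 1).choose 2 + j.val := by
    intro j hj
    rw [heT]
    simp only
    rw [Finset.sum_add_distrib, hite j (fun i => (∑ l, mm k q Z i l + 1) * (H + 1).choose 2),
      if_pos hj, Finset.sum_eq_zero (fun i _ => by rw [hmmS j hj, mul_zero])]
    unfold bb
    rw [if_pos hj, zero_add]
  have heL : ∀ j : Fin k, ¬ j.val < q →
      eT j = (H + 1) ^ 2 * (W + (k - 1 - j.val)) + (H + 2) * (j.val - q) := by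
    intro j hj
    rw [heT]
    simp only
    rw [Finset.sum_add_distrib, hite j (fun i => (∑ l, mm k q Z i l + 1) * (H + 1).choose 2),
      if_neg hj, ← Finset.mul_sum, hmmL j hj]
    unfold bb
    rw [if_neg hj]
    ring
  have hMsum : ∀ i : ℕ, (k - q) * (Z - i) ≤ ∑ l, mm k q Z i l := by
    intro i
    have h1 : ∑ l : Fin k, (if l.val < q then 0 else (Z - i)) ≤ ∑ l, mm k q Z i l := by
      apply Finset.sum_le_sum
      intro l _
      unfold mm
      split_ifs <;> omega
    have h2 : ∑ l : Fin k, (if l.val < q then 0 else (Z - i)) = (k - q) * (Z - i) := by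
      have hcS : (Finset.univ.filter (fun l : Fin k => l.val < q)).card = q := by
        have : Finset.univ.filter (fun j : Fin k => j.val < q)
            = (Finset.univ : Finset (Fin q)).map (Fin.castLEEmb (by omega)) := by
          ext j
          simp only [Finset.mem_filter, Finset.mem_univ, true_and, Finset.mem_map]
          constructor
          · intro h; exact ⟨⟨j.val, h⟩, rfl⟩
          · rintro ⟨i, rfl⟩; exact i.isLt
        rw [this, Finset.card_map, Finset.card_univ, Fintype.card_fin]
      have hcL : (Finset.univ.filter (fun l : Fin k => ¬ l.val < q)).card = k - q := by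
        have h1 : (Finset.univ.filter (fun l : Fin k => l.val < q)).card
            + (Finset.univ.filter (fun l : Fin k => ¬ l.val < q)).card
            = (Finset.univ : Finset (Fin k)).card :=
          Finset.card_filter_add_card_filter_not _
        rw [Finset.card_univ, Fintype.card_fin, hcS] at h1
        omega
      rw [Finset.sum_ite, Finset.sum_const_zero, zero_add, Finset.sum_const, hcL, smul_eq_mul]
    rw [← h2]; exact h1
  have hMmono : ∀ i i' : ℕ, i < i' → i' < q → (∑ l, mm k q Z i' l) + 1 ≤ ∑ l, mm k q Z i l := by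
    intro i i' hii hi'
    have h1 : ∀ l : Fin k, mm k q Z i' l + (if l.val = q then 1 else 0) ≤ mm k q Z i l := by
      intro l
      unfold mm
      split_ifs <;> omega
    have h2 := Finset.sum_le_sum (fun l (_ : l ∈ (Finset.univ : Finset (Fin k))) => h1 l)
    rw [Finset.sum_add_distrib] at h2
    have h4 : ∑ l : Fin k, (if l.val = q then 1 else 0) = 1 := by
      rw [Finset.sum_eq_single (⟨q, by omega⟩ : Fin k)]
      · simp
      · intro l _ hl
        rw [if_neg]
        intro h; exact hl (Fin.ext h)
      · intro h; exact absurd (Finset.mem_univ _) h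
    rw [h4] at h2
    exact h2
  have hC : 2 * (H + 1).choose 2 = (H + 1) * H := by
    rw [Nat.choose_two_right, Nat.add_sub_cancel, Nat.mul_div_cancel']
    have := Nat.even_mul_succ_self H
    rw [mul_comm] at this
    exact this.two_dvd
  have hCq : q < (H + 1).choose 2 := by
    nlinarith
  refine ⟨aT, ⟨?_, ?_, V, hV, hVn, G, f, ⟨fun v j => (hGf v j).1, ?_⟩⟩, ?_, ?_⟩
  · -- strictly increasing
    intro i j hij
    have hij' : i.val < j.val := hij
    by_cases hj : j.val < q
    · rw [haS j hj, haS i (by omega)]; omega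
    · by_cases hi : i.val < q
      · rw [haL j hj, haS i hi]
        have : W ≤ (H + 1) * (W + R) := by nlinarith
        omega
      · rw [haL j hj, haL i hi]; omega
  · intro j
    by_cases hj : j.val < q
    · rw [haS j hj]; omega
    · rw [haL j hj]
      have : W ≤ (H + 1) * (W + R) := by nlinarith
      omega
  · intro v i j hij
    have hij' : i.val < j.val := hij
    rw [(hGf v i).2, (hGf v j).2]
    by_cases hj : j.val < q
    · have hi : i.val < q := by omega
      rw [heS j hj, heS i hi]
      have h1 := hMmono i.val j.val hij' hj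
      have h2 : (∑ l, mm k q Z j.val l + 1) * (H + 1).choose 2 + (H + 1).choose 2
          ≤ (∑ l, mm k q Z i.val l + 1) * (H + 1).choose 2 := by nlinarith
      omega
    · by_cases hi : i.val < q
      · rw [heL j hj, heS i hi]
        have h1 := hMsum i.val
        have hkq : H ≤ k - q := by omega
        have h2 : H * (Z - q) ≤ ∑ l, mm k q Z i.val l := by
          calc H * (Z - q) ≤ (k - q) * (Z - i.val) :=
                Nat.mul_le_mul hkq (Nat.sub_le_sub_left (by omega) _)
            _ ≤ _ := h1
        have h4 : (H + 2) * (j.val - q) ≤ (H + 1) ^ 2 * (j.val - q) :=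
          Nat.mul_le_mul_right _ (by nlinarith)
        have h5 : (H + 1) ^ 2 * (W + (k - 1 - j.val)) + (H + 2) * (j.val - q)
            ≤ (H + 1) ^ 2 * (q * Z + k) := by
          calc (H + 1) ^ 2 * (W + (k - 1 - j.val)) + (H + 2) * (j.val - q)
              ≤ (H + 1) ^ 2 * (W + (k - 1 - j.val)) + (H + 1) ^ 2 * (j.val - q) := by omega
            _ = (H + 1) ^ 2 * (W + (k - 1 - j.val) + (j.val - q)) := by ring
            _ ≤ (H + 1) ^ 2 * (q * Z + k) := by
                apply Nat.mul_le_mul_left
                have := j.isLt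
                omega
        have h6 : 2 * ((H + 1) ^ 2 * (q * Z + k)) < 2 * ((H * (Z - q)) * (H + 1).choose 2) := by
          have e1 : 2 * ((H * (Z - q)) * (H + 1).choose 2) = (H + 1) * (H ^ 2 * (Z - q)) := by
            calc 2 * ((H * (Z - q)) * (H + 1).choose 2)
                = (H * (Z - q)) * (2 * (H + 1).choose 2) := by ring
              _ = (H + 1) * (H ^ 2 * (Z - q)) := by rw [hC]; ring
          have e2 : 2 * ((H + 1) ^ 2 * (q * Z + k)) = (H + 1) * (2 * (H + 1) * (q * Z + k)) := by
            ring
          rw [e1, e2]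
          apply Nat.mul_lt_mul_of_pos_left _ (by omega)
          obtain ⟨Y, hY⟩ : ∃ Y, Z = Y + q := ⟨Z - q, by omega⟩
          have hZY : Z - q = Y := by omega
          rw [hZY]
          have e3 : H ^ 2 = 2 * (H + 1) * q + 1 := by rw [hH]; ring
          have e4 : H ^ 2 * Z = 2 * (H + 1) * q * Z + Z := by rw [e3]; ring
          have e5 : H ^ 2 * Z = H ^ 2 * Y + H ^ 2 * q := by rw [hY]; ring
          have e6 : H ^ 2 * q + 2 * (H + 1) * k + 1 + N = Z := hZ.symm
          nlinarith
        have h7 : (H * (Z - q)) * (H + 1).choose 2 ≤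
            (∑ l, mm k q Z i.val l + 1) * (H + 1).choose 2 :=
          Nat.mul_le_mul_right _ (by omega)
        omega
      · rw [heL j hj, heL i hi]
        obtain ⟨d, hd⟩ : ∃ d, j.val = i.val + d := ⟨j.val - i.val, by omega⟩
        have hdpos : 0 < d := by omega
        have h1 : k - 1 - i.val = (k - 1 - j.val) + d := by have := j.isLt; omega
        have h2 : j.val - q = (i.val - q) + d := by omega
        rw [h1, h2]
        have h4 : (H + 2) * d < (H + 1) ^ 2 * d := by
          apply Nat.mul_lt_mul_of_pos_right _ hdpos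
          nlinarith
        nlinarith
  · intro i hi
    rw [haS i (by omega)]
    omega
  · intro i hi
    rw [haL i (by omega)]
    have : W ≤ (H + 1) * (W + R) := by nlinarith
    omega

lemma not_bounded (k q : ℕ) (hq : 1 ≤ q) (hqk : q ≤ k - 1) (h3 : k ≤ 3 * q) :
    ¬ PositionBounded k q := by
  classical
  rintro ⟨h, hpos, hall⟩
  have hk : q < k := by omega
  obtain ⟨a, ⟨hmono, _, V, hV, hVn, G, f, hG⟩, h1, h2⟩ := hall (2 * (q * h) + 2 * (q * h) ^ 2)
  have := Fintype.ofFinite V
  have hub := upper_bound q hq hk h3 a G f hG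
  have hAS : ∑ j ∈ Finset.univ.filter (fun j : Fin k => j.val < q), a j ≤ q * h := by
    have hc : (Finset.univ.filter (fun j : Fin k => j.val < q)).card = q := by
      have : Finset.univ.filter (fun j : Fin k => j.val < q)
          = (Finset.univ : Finset (Fin q)).map (Fin.castLEEmb (by omega)) := by
        ext j
        simp only [Finset.mem_filter, Finset.mem_univ, true_and, Finset.mem_map]
        constructor
        · intro h; exact ⟨⟨j.val, h⟩, rfl⟩
        · rintro ⟨i, rfl⟩; exact i.isLt
      rw [this, Finset.card_map, Finset.card_univ, Fintype.card_fin]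
    calc ∑ j ∈ Finset.univ.filter (fun j : Fin k => j.val < q), a j
        ≤ ∑ _j ∈ Finset.univ.filter (fun j : Fin k => j.val < q), h := by
          apply Finset.sum_le_sum
          intro j hj
          rw [Finset.mem_filter] at hj
          have h4 := h1 (⟨q - 1, by omega⟩ : Fin k) (by simp only; omega)
          rw [← h4]
          apply hmono.monotone
          rw [Fin.le_def]
          have := hj.2
          simp only
          omega
      _ = q * h := by rw [Finset.sum_const, hc, smul_eq_mul]
  have hAL : a (⟨k - 1, by omega⟩ : Fin k) ≤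
      ∑ j ∈ Finset.univ.filter (fun j : Fin k => ¬ j.val < q), a j := by
    apply Finset.single_le_sum (f := a) (fun _ _ => Nat.zero_le _)
    rw [Finset.mem_filter]
    refine ⟨Finset.mem_univ _, ?_⟩
    simp only
    omega
  have h5 := h2 (⟨k - 1, by omega⟩ : Fin k) (by simp only; omega)
  have h6 : (∑ j ∈ Finset.univ.filter (fun j : Fin k => j.val < q), a j) ^ 2 ≤ (q * h) ^ 2 :=
    Nat.pow_le_pow_left hAS 2
  omega

/-- **The value of `q(k)`**: for every `k ≥ 4` the largest bounded position is
`⌈k/3⌉ - 1`. -/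
theorem result : ∀ k : ℕ, 4 ≤ k →
    IsGreatest {q : ℕ | 1 ≤ q ∧ q ≤ k - 1 ∧ PositionBounded k q} ((k + 2) / 3 - 1) := by
  intro k hk
  constructor
  · exact ⟨by omega, by omega, position_bounded k _ (by omega) (by omega)⟩
  · rintro q ⟨h1, h2, h3⟩
    by_contra hcon
    exact not_bounded k q h1 h2 (by omega) h3

end Pool.Agent.Results.MP_1aba1b_co.FlipPositions
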